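import Pool.Agent.MP_3ee8cb_gt.DZJ.Shell

/-! The fourth moment of a rotation invariant measure, and a mean of `arsinh`. -/

namespace Pool.Agent.MP_3ee8cb_gt.DRN

open Set MeasureTheory Metric CR DZJ Real
open scoped RealInnerProductSpace

variable {n : ℕ}

theorem bd (c w : E n) : |⟪‖w‖⁻¹ • w, c⟫| ≤ ‖c‖ :=
  (abs_real_inner_le_norm _ _).trans (mul_le_of_le_one_left (norm_nonneg _) (hat_le w))

theorem int22 (μ : Measure (E n)) [IsFiniteMeasure μ] (a b : E n) :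
    Integrable (fun w : E n => ⟪‖w‖⁻¹ • w, a⟫ ^ 2 * ⟪‖w‖⁻¹ • w, b⟫ ^ 2) μ := by
  refine Integrable.of_bound (Measurable.aestronglyMeasurable (by fun_prop)) (‖a‖ ^ 2 * ‖b‖ ^ 2)
    (.of_forall fun w => ?_)
  rw [Real.norm_eq_abs, abs_mul, abs_pow, abs_pow]
  exact mul_le_mul (pow_le_pow_left₀ (abs_nonneg _) (bd a w) 2)
    (pow_le_pow_left₀ (abs_nonneg _) (bd b w) 2) (by positivity) (by positivity)

theorem int4 (μ : Measure (E n)) [IsFiniteMeasure μ] (a : E n) :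
    Integrable (fun w : E n => ⟪‖w‖⁻¹ • w, a⟫ ^ 4) μ :=
  (int22 μ a a).congr (.of_forall fun w => by ring)

theorem int2 (μ : Measure (E n)) [IsFiniteMeasure μ] (a : E n) :
    Integrable (fun w : E n => ⟪‖w‖⁻¹ • w, a⟫ ^ 2) μ :=
  (hat_int μ a a).congr (.of_forall fun w => by ring)

/-- The fourth moment. -/
theorem m4 (μ : Measure (E n)) [IsFiniteMeasure μ]
    (hinv : ∀ R : E n ≃ₗᵢ[ℝ] E n, MeasurePreserving R μ μ) (h0 : ∀ᵐ w ∂μ, w ≠ 0)
    (hm : μ.real univ = n) {e : E n} (he : ‖e‖ = 1) :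
    ∫ w, ⟪‖w‖⁻¹ • w, e⟫ ^ 4 ∂μ = 3 / (n + 2) := by
  set Q : E n → ℝ := fun c => ∫ w, ⟪‖w‖⁻¹ • w, c⟫ ^ 4 ∂μ with hQ
  have h1 : ∀ c d : E n, ‖c‖ = ‖d‖ → Q c = Q d := fun c d h => by
    let R := (ℝ ∙ (c - d))ᗮ.reflection
    have hR : R c = d := Submodule.reflection_sub h
    have := (hinv R).integral_comp R.toHomeomorph.measurableEmbedding
      fun w => ⟪‖w‖⁻¹ • w, d⟫ ^ 4
    simp only [hQ]
    rw [← this, ← hR]
    simp only [LinearIsometryEquiv.norm_map, ← map_smul, LinearIsometryEquiv.inner_map_map]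
  have h2 : ∀ c : E n, ‖c‖ ^ 2 = 2 → Q c = 4 * Q e := fun c hc => by
    rw [h1 c (‖c‖ • e) (by rw [norm_smul, norm_norm, he, mul_one])]
    simp only [hQ]
    rw [← integral_const_mul]
    refine integral_congr_ae (.of_forall fun w => ?_)
    simp only [real_inner_smul_right, mul_pow]
    rw [show ‖c‖ ^ 4 = (‖c‖ ^ 2) ^ 2 by ring, hc]
    norm_num
  have hn : 0 < n := Nat.pos_of_ne_zero fun h0 => by
    subst h0
    simp [Subsingleton.elim e 0] at he
  let f := EuclideanSpace.basisFun (Fin n) ℝ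
  let i : Fin n := ⟨0, hn⟩
  have h3 : ∀ j, Q (f j) = Q e := fun j => h1 _ _ (by rw [f.orthonormal.1 j, he])
  have h4 : ∀ j ∈ Finset.univ.erase i,
      ∫ w, ⟪‖w‖⁻¹ • w, f i⟫ ^ 2 * ⟪‖w‖⁻¹ • w, f j⟫ ^ 2 ∂μ = Q e / 3 := fun j hj => by
    have o : ⟪f i, f j⟫ = 0 := f.orthonormal.2 (Finset.ne_of_mem_erase hj).symm
    have a1 := h2 (f i + f j) (by
      rw [norm_add_sq_real, o, f.orthonormal.1 i, f.orthonormal.1 j]; norm_num)
    have a2 := h2 (f i - f j) (by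
      rw [norm_sub_sq_real, o, f.orthonormal.1 i, f.orthonormal.1 j]; norm_num)
    have a3 : Q (f i + f j) + Q (f i - f j) = 2 * Q (f i) + 2 * Q (f j) +
        12 * ∫ w, ⟪‖w‖⁻¹ • w, f i⟫ ^ 2 * ⟪‖w‖⁻¹ • w, f j⟫ ^ 2 ∂μ := by
      simp only [hQ]
      rw [← integral_add (int4 μ _) (int4 μ _), ← integral_const_mul, ← integral_const_mul,
        ← integral_const_mul, ← integral_add ((int4 μ _).const_mul _) ((int4 μ _).const_mul _),
        ← integral_add (((int4 μ _).const_mul _).fun_add ((int4 μ _).const_mul _))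
          ((int22 μ _ _).const_mul _)]
      refine integral_congr_ae (.of_forall fun w => ?_)
      simp only [inner_add_right, inner_sub_right]
      ring
    rw [a1, a2, h3, h3] at a3
    linarith
  have h5 : ∑ j, ∫ w, ⟪‖w‖⁻¹ • w, f i⟫ ^ 2 * ⟪‖w‖⁻¹ • w, f j⟫ ^ 2 ∂μ = 1 := by
    rw [← integral_finsetSum _ fun j _ => int22 μ _ _]
    have := iso_of_inv μ hinv h0 hm (f i) (f i)
    rw [real_inner_self_eq_norm_sq, f.orthonormal.1 i, one_pow] at this
    rw [← this]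
    refine integral_congr_ae ?_
    filter_upwards [h0] with w hw
    rw [← Finset.mul_sum, f.sum_sq_inner_left, hat_norm hw]
    ring
  have h6 : ∫ w, ⟪‖w‖⁻¹ • w, f i⟫ ^ 2 * ⟪‖w‖⁻¹ • w, f i⟫ ^ 2 ∂μ = Q e := by
    rw [← h3 i]
    exact integral_congr_ae (.of_forall fun w => by ring)
  rw [← Finset.add_sum_erase _ _ (Finset.mem_univ i), Finset.sum_congr rfl h4, h6,
    Finset.sum_const, Finset.card_erase_of_mem (Finset.mem_univ i), Finset.card_univ,
    Fintype.card_fin, nsmul_eq_mul, Nat.cast_pred hn] at h5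
  change Q e = _
  rw [eq_div_iff (by positivity)]
  linarith

theorem arsinh_ge {t : ℝ} (ht : 0 ≤ t) : t - t ^ 3 / 6 ≤ arsinh t := by
  have d : ∀ s : ℝ, HasDerivAt (fun s => arsinh s - (s - s ^ 3 / 6))
      ((√(1 + s ^ 2))⁻¹ - (1 - s ^ 2 / 2)) s := fun s =>
    ((hasDerivAt_arsinh s).sub ((hasDerivAt_id s).sub
      ((hasDerivAt_pow 3 s).div_const 6))).congr_deriv (by norm_num; ring)
  have m : Monotone fun s => arsinh s - (s - s ^ 3 / 6) :=
    monotone_of_hasDerivAt_nonneg d fun s => by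
      have p : 0 < √(1 + s ^ 2) := sqrt_pos.2 (by positivity)
      have q : √(1 + s ^ 2) ≤ 1 + s ^ 2 / 2 := sqrt_le_iff.2 ⟨by positivity, by
        nlinarith [sq_nonneg (s ^ 2)]⟩
      have r := inv_anti₀ p q
      have t : 1 - s ^ 2 / 2 ≤ (1 + s ^ 2 / 2)⁻¹ := by
        rw [← one_div, le_div_iff₀ (by positivity)]
        nlinarith [sq_nonneg (s ^ 2)]
      simp only [Pi.zero_apply]
      linarith
  simpa using m ht

/-- The pointwise lower bound. -/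
theorem pt {S S' r la σ : ℝ} (hS : 0 ≤ S) (h : S ≤ S') (hr : 0 ≤ r) (hl : 0 < la) :
    S * σ ^ 2 - S ^ 3 / 6 * σ ^ 4 - r / 2 * (la * σ ^ 2 + la⁻¹) ≤
      arsinh (S' * σ) * σ - r * |σ| := by
  have a0 := abs_nonneg σ
  have a1 : arsinh (S' * σ) * σ = arsinh (S' * |σ|) * |σ| := by
    rcases abs_choice σ with k | k <;> rw [k]
    rw [mul_neg S', arsinh_neg, neg_mul_neg]
  have a2 := (arsinh_ge (mul_nonneg hS a0)).trans
    (arsinh_le_arsinh.2 (mul_le_mul_of_nonneg_right h a0))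
  have a3 : 2 * |σ| ≤ la * σ ^ 2 + la⁻¹ := by
    rw [← sq_abs σ]
    have k : la * la⁻¹ = 1 := mul_inv_cancel₀ hl.ne'
    have := mul_nonneg hl.le (sq_nonneg (|σ| - la⁻¹))
    have e : la * (|σ| - la⁻¹) ^ 2 =
        la * |σ| ^ 2 - 2 * (la * la⁻¹) * |σ| + (la * la⁻¹) * la⁻¹ := by ring
    rw [e, k] at this
    linarith
  have a4 : σ ^ 4 = |σ| ^ 4 := by rw [← abs_pow, abs_of_nonneg (by positivity)]
  rw [a1, a4]
  nth_rewrite 1 [← sq_abs σ]
  nlinarith [mul_le_mul_of_nonneg_right a2 a0, mul_le_mul_of_nonneg_left a3 hr]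

theorem pt_int (μ : Measure (E n)) [IsFiniteMeasure μ] (S r : ℝ) (e : E n) :
    Integrable (fun w : E n => arsinh (S * ⟪‖w‖⁻¹ • w, e⟫) * ⟪‖w‖⁻¹ • w, e⟫ -
      r * |⟪‖w‖⁻¹ • w, e⟫|) μ := by
  have c : Continuous fun σ : ℝ => arsinh (S * σ) * σ - r * |σ| :=
    ((continuous_arsinh.comp (by fun_prop)).mul continuous_id).sub (by fun_prop)
  obtain ⟨C, hC⟩ := (isCompact_Icc (a := -‖e‖) (b := ‖e‖)).exists_bound_of_continuousOn
    c.continuousOn
  exact Integrable.of_bound (c.measurable.comp (by fun_prop)).aestronglyMeasurable C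
    (.of_forall fun w => hC _ (abs_le.1 (bd e w)))

/-- The mean of the inward component. -/
theorem mean (μ : Measure (E n)) [IsFiniteMeasure μ]
    (hinv : ∀ R : E n ≃ₗᵢ[ℝ] E n, MeasurePreserving R μ μ) (h0 : ∀ᵐ w ∂μ, w ≠ 0)
    (hm : μ.real univ = n) {e : E n} (he : ‖e‖ = 1) {S S' r la : ℝ} (hS : 0 ≤ S) (h : S ≤ S')
    (hr : 0 ≤ r) (hl : 0 < la) : S - S ^ 3 / (2 * (n + 2)) - r * (la + n / la) / 2 ≤
      ∫ w, (arsinh (S' * ⟪‖w‖⁻¹ • w, e⟫) * ⟪‖w‖⁻¹ • w, e⟫ - r * |⟪‖w‖⁻¹ • w, e⟫|) ∂μ := by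
  have i2 := int2 μ e
  have i4 := int4 μ e
  have j1 := (i2.const_mul S).sub (i4.const_mul (S ^ 3 / 6))
  have j2 := ((i2.const_mul la).fun_add (integrable_const la⁻¹)).const_mul (r / 2)
  have v2 : ∫ w, ⟪‖w‖⁻¹ • w, e⟫ ^ 2 ∂μ = 1 := by
    have := iso_of_inv μ hinv h0 hm e e
    rw [real_inner_self_eq_norm_sq, he, one_pow] at this
    simpa only [sq] using this
  refine le_trans (le_of_eq ?_) (integral_mono (j1.sub j2) (pt_int μ S' r e) fun w =>
    pt hS h hr hl)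
  rw [integral_sub' j1 j2, integral_sub' (i2.const_mul _) (i4.const_mul _), integral_const_mul,
    integral_const_mul, integral_const_mul, integral_add (i2.const_mul _) (integrable_const _),
    integral_const_mul, integral_const, v2, m4 μ hinv h0 hm he, hm, smul_eq_mul]
  field_simp
  ring

end Pool.Agent.MP_3ee8cb_gt.DRN
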